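import Pool.Agent.helper98.P2G.Spec

/-!
# Project p2g: row RAF: a uniform limit of real affine functions is real affine
-/

set_option autoImplicit false

open Complex Metric Set Filter Topology MeasureTheory
open Pool.Agent.helper98.ILF
open WP (it)
open HY (UD T S hd UN RM)
open PM
open P2 (SS FL FLS CLS FR TL)
open PL (TP LO PZ GJ INR PG DK ht tr DI CY hG)

noncomputable section

namespace P2G

theorem RAF : RAF_stmt := by
  intro X ζ₀ r hr h
  have h' : ∀ n : ℕ, ∃ (al : ℝ) (be : ℂ), ∀ ζ ∈ ball ζ₀ r, ‖X ζ - ((al : ℂ) * ζ + be)‖ ≤ 1 / ((n : ℝ) + 1) :=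
    fun n => h _ (by positivity)
  choose al be hab using h'
  have hlim : ∀ ζ ∈ ball ζ₀ r, Tendsto (fun n : ℕ => (al n : ℂ) * ζ + be n) atTop (𝓝 (X ζ)) := by
    intro ζ hζ
    rw [tendsto_iff_norm_sub_tendsto_zero]
    refine squeeze_zero (fun n => norm_nonneg _) (fun n => ?_) tendsto_one_div_add_atTop_nhds_zero_nat
    rw [norm_sub_rev]
    exact hab n ζ hζ
  have hr2 : ((r / 2 : ℝ) : ℂ) ≠ 0 := by
    have : r / 2 ≠ 0 := by positivity
    exact_mod_cast this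
  have h0 : ζ₀ ∈ ball ζ₀ r := mem_ball_self hr
  have h1 : ζ₀ + ((r / 2 : ℝ) : ℂ) ∈ ball ζ₀ r := by
    rw [mem_ball, dist_eq_norm, add_sub_cancel_left, Complex.norm_real, Real.norm_eq_abs, abs_of_pos (by positivity)]
    linarith
  set L : ℂ := (X (ζ₀ + ((r / 2 : ℝ) : ℂ)) - X ζ₀) / ((r / 2 : ℝ) : ℂ) with hL
  have hal : Tendsto (fun n : ℕ => (al n : ℂ)) atTop (𝓝 L) := by
    have h2 := ((hlim _ h1).sub (hlim _ h0)).div_const ((r / 2 : ℝ) : ℂ)
    refine h2.congr (fun n => ?_)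
    field_simp
    ring
  have hLre : ((L.re : ℝ) : ℂ) = L := by
    have h3 : Tendsto (fun n : ℕ => ((al n : ℂ)).im) atTop (𝓝 L.im) := (Complex.continuous_im.tendsto L).comp hal
    have h4 : Tendsto (fun n : ℕ => ((al n : ℂ)).im) atTop (𝓝 0) := by
      simp
    have h5 := tendsto_nhds_unique h3 h4
    apply Complex.ext
    · simp
    · simp [h5]
  refine ⟨L.re, X ζ₀ - L * ζ₀, fun ζ hζ => ?_⟩
  rw [hLre]
  have h6 : Tendsto (fun n : ℕ => (al n : ℂ) * ζ + be n) atTop (𝓝 (L * ζ + (X ζ₀ - L * ζ₀))) := by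
    have h7 := (hal.mul_const ζ).add ((hlim _ h0).sub (hal.mul_const ζ₀))
    refine h7.congr (fun n => ?_)
    ring
  exact tendsto_nhds_unique (hlim ζ hζ) h6

end P2G
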